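import Mathlib
import Pool.Agent.Y144.CZ.Fin

/-!
# Colmez's product formula: the combinations governed by the averaged and the abelian case

`G` is the Galois group of a CM field `K`, Galois over `ℚ`; `c` is complex conjugation. A datum
`d = (H, ψ, Φ)` is a CM field `E = K^H`, an embedding `ψ` of `E` (a coset of `H`) and a CM type `Φ`
of `E` (a set of cosets); `a0 d` is the class function `a⁰_{E,ψ,Φ}` and `ht d` is `ht(E,ψ,Φ)`.
-/

set_option autoImplicit false

namespace Pool.Agent.Results.MP_a2beea_nt.PowerAverages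

open Pool.Agent.Y144.CZ

/-- Hypotheses (published theorems on the heights `ht(E,ψ,Φ)` and on `Z a = Z^∞(a, 0)`):
* `hL`: Colmez's theorem: `ht(E,ψ,Φ)` is a `ℚ`-linear form `L` of `a⁰_{E,ψ,Φ}`;
* `hleg`: the Legendre relation `ht(E,ψ,Φ) + ht(E,cψ,Φ) = log 2π = Z(1)`;
* `havg`: the averaged Colmez formula: for every CM field `E` the product formula holds for the sum
  over all CM types `Φ` of `E` and all `ψ ∈ Φ`;
* `hab`: the product formula for the CM fields `E` which are abelian over `ℚ`.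

Conclusions:
1. Let `b = ∑ nᵢ a⁰_{Eᵢ,ψᵢ,Φᵢ}`, `nᵢ ∈ ℚ`. If, for all `k` prime to `|G|`, the function
   `g ↦ b (g ^ k) - b g` factors through the abelianization of `G`, then the product formula holds
   for this combination: `∑ nᵢ ht(Eᵢ,ψᵢ,Φᵢ) = ∑ nᵢ Z((a⁰_{Eᵢ,ψᵢ,Φᵢ})^*)`.
2. For every `(E,ψ,Φ)`, the product formula holds for the sum over the `k` modulo `|G|` prime to
   `|G|` of the data `(K, id, Φ^(k))`, where `Φ^(k) = {x ∈ G : x ^ k ψ ∈ Φ}`, a CM type of `K`.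
3. The condition in 1 is optimal: for class functions `b` with `b g + b (c g)` constant it holds if
   and only if `b` is a rational combination of `1`, the averages over the CM types of the CM
   subfields of `K`, and the functions `a⁰` of the abelian CM subfields. -/
theorem result (G : Type) [Group G] [Fintype G] (c : G) (hc1 : c ≠ 1) (hcc : c * c = 1)
    (hc : ∀ x : G, c * x = x * c)
    (ht : Datum G c → ℝ) (L Z : (G → ℚ) →ₗ[ℚ] ℝ)
    (hL : ∀ d : Datum G c, ht d = L (a0 d))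
    (hleg : ∀ d : Datum G c, ht d + ht d.conj = Z (fun _ => 1))
    (havg : ∀ H : Subgroup G, c ∉ H →
      ∑ Φ : CMType c H, ∑ ψ ∈ Φ.1, ht ⟨H, ψ, Φ.1, Φ.2⟩ =
        ∑ Φ : CMType c H, ∑ ψ ∈ Φ.1, Z (fun g => a0 (⟨H, ψ, Φ.1, Φ.2⟩ : Datum G c) g⁻¹))
    (hab : ∀ d : Datum G c, commutator G ≤ d.H → ht d = Z (fun g => a0 d g⁻¹)) :
    (∀ (I : Type) [Fintype I] (n : I → ℚ) (d : I → Datum G c),
      (∀ k : ℕ, Nat.Coprime k (Nat.card G) → ∀ g : G, ∀ u ∈ commutator G,
        ∑ i, n i * a0 (d i) ((g * u) ^ k) - ∑ i, n i * a0 (d i) (g * u) =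
          ∑ i, n i * a0 (d i) (g ^ k) - ∑ i, n i * a0 (d i) g) →
      ∑ i, (n i : ℝ) * ht (d i) = ∑ i, (n i : ℝ) * Z (fun g => a0 (d i) g⁻¹)) ∧
    (∀ d : Datum G c,
      ∑ k : (ZMod (Nat.card G))ˣ, ht (d.pow hc1 hcc hc (k : ZMod (Nat.card G)).val
          (ZMod.val_coe_unit_coprime k)) =
        ∑ k : (ZMod (Nat.card G))ˣ, Z (fun g => a0 (d.pow hc1 hcc hc (k : ZMod (Nat.card G)).val
          (ZMod.val_coe_unit_coprime k)) g⁻¹)) ∧
    (∀ b : G → ℚ, (∀ x g : G, b (x * g * x⁻¹) = b g) → ∀ κ : ℚ, (∀ g : G, b g + b (c * g) = κ) →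
      ((∀ k : ℕ, Nat.Coprime k (Nat.card G) → ∀ g : G, ∀ u ∈ commutator G,
          b ((g * u) ^ k) - b (g * u) = b (g ^ k) - b g) ↔
        b ∈ Submodule.span ℚ ({fun _ => 1} ∪
          {f | ∃ H : Subgroup G, c ∉ H ∧
            f = fun g => ∑ Φ : CMType c H, ∑ ψ ∈ Φ.1, a0 (⟨H, ψ, Φ.1, Φ.2⟩ : Datum G c) g} ∪
          {f | ∃ d : Datum G c, commutator G ≤ d.H ∧ f = a0 d}))) := by
  -- the difference of the two sides as a linear form
  let S : (G → ℚ) →ₗ[ℚ] (G → ℚ) := LinearMap.funLeft ℚ ℚ (fun g : G => g⁻¹)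
  let D : (G → ℚ) →ₗ[ℚ] ℝ := L - Z ∘ₗ S
  have hD : ∀ f : G → ℚ, D f = L f - Z (fun g => f g⁻¹) := fun f => rfl
  have hDd : ∀ d : Datum G c, D (a0 d) = ht d - Z (fun g => a0 d g⁻¹) := by
    intro d
    rw [hD, hL]
  have hD1 : D (fun _ => 1) = 0 := by
    obtain ⟨Φ⟩ := exists_type hcc hc (⊥ : Subgroup G) (by rwa [Subgroup.mem_bot])
    let d : Datum G c := ⟨⊥, ((1 : G) : G ⧸ (⊥ : Subgroup G)), Φ.1, Φ.2⟩
    have h1 : (fun _ : G => (1 : ℚ)) = a0 d + a0 d.conj := by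
      funext g
      rw [Pi.add_apply, a0_conjugate hc]
      ring
    rw [hD]
    have h2 : L (fun _ => 1) = Z (fun _ => 1) := by
      rw [h1, map_add, ← hL, ← hL, ← h1, hleg]
    rw [h2, sub_self]
  have hDavg : ∀ H : Subgroup G, c ∉ H → D (avg c H) = 0 := by
    intro H hH
    have h1 : avg c H = ∑ Φ : CMType c H, ∑ ψ ∈ Φ.1, a0 (⟨H, ψ, Φ.1, Φ.2⟩ : Datum G c) := by
      funext g
      unfold avg
      rw [Finset.sum_apply]
      refine Finset.sum_congr rfl fun Φ _ => ?_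
      rw [Finset.sum_apply]
    rw [h1, map_sum]
    have h2 : ∀ Φ : CMType c H, D (∑ ψ ∈ Φ.1, a0 (⟨H, ψ, Φ.1, Φ.2⟩ : Datum G c)) =
        ∑ ψ ∈ Φ.1, ht ⟨H, ψ, Φ.1, Φ.2⟩ -
          ∑ ψ ∈ Φ.1, Z (fun g => a0 (⟨H, ψ, Φ.1, Φ.2⟩ : Datum G c) g⁻¹) := by
      intro Φ
      rw [map_sum, ← Finset.sum_sub_distrib]
      exact Finset.sum_congr rfl fun ψ _ => hDd _
    rw [Finset.sum_congr rfl fun Φ _ => h2 Φ, Finset.sum_sub_distrib, havg H hH, sub_self]
  have hDab : ∀ d : Datum G c, commutator G ≤ d.H → D (a0 d) = 0 := by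
    intro d hd
    rw [hDd, hab d hd, sub_self]
  have main : ∀ (I : Type) [Fintype I] (n : I → ℚ) (d : I → Datum G c),
      (∀ k : ℕ, Nat.Coprime k (Nat.card G) → ∀ g : G, ∀ u ∈ commutator G,
        ∑ i, n i * a0 (d i) ((g * u) ^ k) - ∑ i, n i * a0 (d i) (g * u) =
          ∑ i, n i * a0 (d i) (g ^ k) - ∑ i, n i * a0 (d i) g) →
      ∑ i, (n i : ℝ) * ht (d i) = ∑ i, (n i : ℝ) * Z (fun g => a0 (d i) g⁻¹) := by
    intro I _ n d hstar
    have h0 := criterion hcc hc D hD1 hDavg hDab (fun g => ∑ i, n i * a0 (d i) g)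
      (fun x g => Finset.sum_congr rfl fun i _ => by rw [a0_conj]) (∑ i, n i)
      (fun g => by
        rw [← Finset.sum_add_distrib]
        refine Finset.sum_congr rfl fun i _ => ?_
        rw [a0_c hc]
        ring) hstar
    have h1 : (fun g => ∑ i, n i * a0 (d i) g) = ∑ i, n i • a0 (d i) := by
      funext g
      rw [Finset.sum_apply]
      exact Finset.sum_congr rfl fun i _ => by rw [Pi.smul_apply, smul_eq_mul]
    rw [h1, map_sum] at h0
    have h2 : ∀ i, D (n i • a0 (d i)) = (n i : ℝ) * ht (d i) -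
        (n i : ℝ) * Z (fun g => a0 (d i) g⁻¹) := by
      intro i
      rw [map_smul, hDd, Rat.smul_def, mul_sub]
    rw [Finset.sum_congr rfl fun i _ => h2 i, Finset.sum_sub_distrib, sub_eq_zero] at h0
    exact h0
  refine ⟨main, ?_, ?_⟩
  · intro d
    have h := main (ZMod (Nat.card G))ˣ (fun _ => 1) (fun k =>
      d.pow hc1 hcc hc (k : ZMod (Nat.card G)).val (ZMod.val_coe_unit_coprime k)) (by
        intro k hk g u hu
        have hp := (sum_pow_inv (a0 d)).star k hk g u hu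
        simp only [one_mul, a0_pow]
        exact hp)
    simpa only [Rat.cast_one, one_mul] using h
  · intro b hb κ hκ
    exact span_iff hc1 hcc hc b hb κ hκ

end Pool.Agent.Results.MP_a2beea_nt.PowerAverages
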