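import Mathlib
import Pool.Agent.Y1.CO.Trans

/-!
# Colmez's product formula: few CM types decide all CM types of a CM field

`G` is the Galois group of a CM field `K`, Galois over `ℚ`; `c` is complex conjugation. A datum
`d = (H, ψ, Φ)` is a CM field `E = K^H`, an embedding `ψ` of `E` (a coset of `H`) and a CM type `Φ`
of `E` (a set of cosets); `a0 d` is the class function `a⁰_{E,ψ,Φ}` and `ht d` is `ht(E,ψ,Φ)`.
-/

set_option autoImplicit false

namespace Pool.Agent.Results.MP_a2beea_nt.ZeroOneLaw

open Pool.Agent.Y144.CZ Pool.Agent.Y1.CO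

open Classical in
/-- Hypotheses (published theorems on the heights `ht(E,ψ,Φ)`; neither the abelian nor the averaged
case of Colmez's formula is assumed):
* `hL`: Colmez's theorem: `ht(E,ψ,Φ)` is a `ℚ`-linear form `L` of `a⁰_{E,ψ,Φ}`;
* `hleg`: the Legendre relation `ht(E,ψ,Φ) + ht(E,cψ,Φ) = log 2π = Z(1)`, `Z(a) = Z^∞(a, 0)`.

`E` is the field fixed by `H`, of degree `2 g`; it has `2 ^ g` CM types. Write `PF(ψ,Φ)` for the
product formula `ht(E,ψ,Φ) = Z((a⁰_{E,ψ,Φ})^*)` (`ProductFormula`), and `FF(Φ)` for the sum of these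
formulas over the `ψ ∈ Φ` (`SumFormula`), the formula for the Faltings height of the abelian
varieties of type `Φ`.

A. Assume that the product formula fails for some datum `(E', ψ', Φ')` with `E' ⊆ E` a CM field.
1. For every nondegenerate CM type `Φ` of `E` it fails for some `ψ`.
2. At most `g.choose (g / 2)` of the `2 ^ g` CM types `Φ` of `E` satisfy `PF(ψ,Φ)` for all `ψ`.
3. For every `ψ`, at most half of the CM types `Φ` of `E` satisfy `PF(ψ,Φ)`.

B. Assume that `FF(Φ)` fails for some CM type `Φ` of `E`.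
4. At most `6 * g ^ (-1 / 4) * 2 ^ g` of the `2 ^ g` CM types of `E` satisfy `FF`: it fails for
   almost all CM types of `E`. (If `g` is small: at most three quarters of them.)
5. For every CM type `Φ` of `E` there is a CM type `Φ'` of `E` which differs from `Φ` in at most two
   pairs of conjugate embeddings, for which `FF(Φ')` fails.

This is a zero-one law: the formula holds for all CM types of `E`, or for few of them.
So Colmez's formula for the field `E`, all its CM types and embeddings and all its CM subfields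
follows from the formula for one nondegenerate CM type of `E`, or from the formula for more than
`g.choose (g / 2) ~ 2 ^ g * √(2 / (π g))` of the `2 ^ g` CM types (for all `ψ`), or from the
formula for one `ψ` and more than half of the CM types; and the formula for the Faltings heights of
all CM types of `E` follows from the formula for more than `6 * g ^ (-1 / 4) * 2 ^ g` of them, or for
the `1 + g + g (g - 1) / 2` CM types which differ from a given one in at most two pairs.

The proof. The difference `D` of the two sides is a linear form in `a⁰`. For 1 and 2: the functions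
on the embeddings of `E` that change their sign under complex conjugation and are killed by `D` for
all `ψ` are a space stable under `G`; its orthogonal complement is stable and, by assumption, not
zero, so it contains a function without zeros, and the types orthogonal to it are an antichain after
a change of signs (Sperner). For B: `D` gives a `G`-invariant quadratic form `q` on these functions,
and `FF(Φ)` is the equation `q = 0` for the sign function of `Φ`. So `q` is a quadratic function on
the cube `{±1} ^ g`, and all variables occur in the same number `d` of mixed terms. If `d > 0`, the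
number of its zeros is estimated by influences: at a zero the derivative in the direction `i` is zero
or the neighbour is not a zero; the second possibility is bounded by `√(g (1 + √d))` on the average,
by applying the same argument to the derivatives, the first one by `g / √d`. If `d` is small the
same is done for a set of at least `g / (1 + 3 d)` directions without mixed terms which have private
neighbours (the other variable of a mixed term), and the first possibility is estimated by the
signs of these variables. -/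
theorem result (G : Type) [Group G] [Fintype G] (c : G) (hcc : c * c = 1)
    (hc : ∀ x : G, c * x = x * c)
    (ht : Datum G c → ℝ) (L Z : (G → ℚ) →ₗ[ℚ] ℝ)
    (hL : ∀ d : Datum G c, ht d = L (a0 d))
    (hleg : ∀ d : Datum G c, ht d + ht d.conj = Z (fun _ => 1))
    (H : Subgroup G) (g : ℕ) (hg : Nat.card (G ⧸ H) = 2 * g) :
    ((∃ d : Datum G c, H ≤ d.H ∧ ¬ ProductFormula ht Z d) →
      Nat.card (CMType c H) = 2 ^ g ∧
      (∀ Φ : CMType c H, Nondegenerate c Φ →
        ∃ ψ : G ⧸ H, ¬ ProductFormula ht Z ⟨H, ψ, Φ.1, Φ.2⟩) ∧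
      Nat.card {Φ : CMType c H // ∀ ψ : G ⧸ H, ProductFormula ht Z ⟨H, ψ, Φ.1, Φ.2⟩} ≤
        g.choose (g / 2) ∧
      ∀ ψ : G ⧸ H, 2 * Nat.card {Φ : CMType c H // ProductFormula ht Z ⟨H, ψ, Φ.1, Φ.2⟩} ≤
        2 ^ g) ∧
    ((∃ Φ : CMType c H, ¬ SumFormula ht Z Φ) →
      (Nat.card {Φ : CMType c H // SumFormula ht Z Φ} : ℝ) * (g : ℝ) ^ (1 / 4 : ℝ) ≤ 6 * 2 ^ g ∧
      4 * Nat.card {Φ : CMType c H // SumFormula ht Z Φ} ≤ 3 * 2 ^ g ∧
      ∀ Φ : CMType c H, ∃ Φ' : CMType c H, (Φ.1 \ Φ'.1).card ≤ 2 ∧ ¬ SumFormula ht Z Φ') := by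
  -- the difference of the two sides as a linear form
  let S : (G → ℚ) →ₗ[ℚ] (G → ℚ) := LinearMap.funLeft ℚ ℚ (fun g : G => g⁻¹)
  let D : (G → ℚ) →ₗ[ℚ] ℝ := L - Z ∘ₗ S
  have hD : ∀ f : G → ℚ, D f = L f - Z (fun g => f g⁻¹) := fun f => rfl
  have hDd : ∀ d : Datum G c, D (a0 d) = ht d - Z (fun g => a0 d g⁻¹) := by
    intro d
    rw [hD, hL]
  have hPF : ∀ d : Datum G c, ProductFormula ht Z d ↔ D (a0 d) = 0 := by
    intro d
    rw [hDd, sub_eq_zero]
    rfl
  have hD1 : ∀ _ : Datum G c, D (fun _ => 1) = 0 := by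
    intro d
    have h1 : (fun _ : G => (1 : ℚ)) = a0 d + a0 d.conj := by
      funext g
      rw [Pi.add_apply, a0_conjugate hc]
      ring
    rw [hD]
    have h2 : L (fun _ => 1) = Z (fun _ => 1) := by
      rw [h1, map_add, ← hL, ← hL, ← h1, hleg]
    rw [h2, sub_self]
  have hSF : ∀ Φ : CMType c H, SumFormula ht Z Φ ↔
      ∑ ψ ∈ Φ.1, D (a0 (⟨H, ψ, Φ.1, Φ.2⟩ : Datum G c)) = 0 := by
    intro Φ
    rw [Finset.sum_congr rfl fun ψ _ => hDd _, Finset.sum_sub_distrib, sub_eq_zero]
    rfl
  constructor
  · rintro ⟨d, hdH, hd⟩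
    rw [hPF] at hd
    have h1 := hD1 d
    obtain ⟨f, hf, ψ₀, hψ₀⟩ := exists_of_fail D h1 d hd H hdH
    have h0 : orth D c H ≠ ⊥ := orth_ne_bot D H f hf ψ₀ hψ₀
    -- a CM type of `E`
    have hπ : ∀ (g : G) (x : G ⧸ H),
        Subgroup.quotientMapOfLE hdH (g • x) = g • Subgroup.quotientMapOfLE hdH x := by
      intro g x
      obtain ⟨y, rfl⟩ := QuotientGroup.mk_surjective x
      rfl
    let Φ₀ : CMType c H :=
      ⟨Finset.univ.filter (fun x : G ⧸ H => Subgroup.quotientMapOfLE hdH x ∈ d.Φ), by
        intro x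
        simp only [Finset.mem_filter, Finset.mem_univ, true_and, hπ, d.cm]⟩
    have hcard : Nat.card (CMType c H) = 2 ^ g := card_types hcc Φ₀ hg
    refine ⟨hcard, fun Φ hΦ => ?_, ?_, fun ψ => ?_⟩
    · obtain ⟨ψ, hψ⟩ := nondeg_fail hc D h1 H h0 Φ hΦ
      exact ⟨ψ, fun h => hψ ((hPF _).1 h)⟩
    · simp only [hPF]
      exact card_all_le hc hcc D h1 H h0 hg
    · simp only [hPF]
      rw [← hcard]
      refine card_one_le hcc D h1 ψ ?_
      obtain ⟨γ, hγ⟩ := MulAction.exists_smul_eq G ψ ψ₀
      refine ⟨fun x => f (γ • x), fun x => ?_, ?_⟩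
      · show f (γ • c • x) = - f (γ • x)
        rw [smul_smul, ← hc, ← smul_smul, hf]
      · rw [avm_smul, hγ]
        exact hψ₀
  · rintro ⟨Φ₁, hΦ₁⟩
    obtain ⟨ψ₁⟩ : Nonempty (G ⧸ H) := inferInstance
    have h1 := hD1 ⟨H, ψ₁, Φ₁.1, Φ₁.2⟩
    have hcard : Nat.card (CMType c H) = 2 ^ g := card_types hcc Φ₁ hg
    have h0 : ∃ Φ : CMType c H,
        ∑ ψ ∈ Φ.1, D (a0 (⟨H, ψ, Φ.1, Φ.2⟩ : Datum G c)) ≠ 0 :=
      ⟨Φ₁, fun h => hΦ₁ ((hSF _).2 h)⟩
    refine ⟨?_, ?_, fun Φ => ?_⟩
    · simp only [hSF]
      exact card_fal_small hc hcc D h1 H hg h0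
    · simp only [hSF]
      rw [← hcard]
      exact card_fal_le hc hcc D h1 H h0
    · obtain ⟨Φ', h2, h3⟩ := near_fail hc hcc D h1 H h0 Φ
      exact ⟨Φ', h2, fun h => h3 ((hSF _).1 h)⟩

end Pool.Agent.Results.MP_a2beea_nt.ZeroOneLaw
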